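import Mathlib
import Pool.Agent.K4H36.BK.Def
import Pool.Agent.K4H36.BK.G
import Pool.Agent.K4H40.ST.Frob

/-!
# Decomposition groups in the absolute Galois group, for the local factor formula
-/

set_option autoImplicit false
set_option linter.all false

namespace Pool.Agent.K4H43.BK

open NumberField Pool.Agent.K4H36.BK
open scoped Pointwise

/-- An automorphism of an algebraic extension of a finite field acts on a finite subextension as a
power of the Frobenius automorphism. -/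
theorem res_frob {k κN κ : Type} [Field k] [Field κN] [Field κ] [Fintype k] [Finite κN]
    [Algebra k κN] [Algebra k κ] [Algebra κN κ] [IsScalarTower k κN κ] (d : κ ≃ₐ[k] κ) :
    ∃ n : ℕ, ∀ x : κN, d (algebraMap κN κ x) = (algebraMap κN κ x) ^ (Fintype.card k ^ n) := by
  have : Finite k := inferInstance
  have : FiniteDimensional k κN := inferInstance
  have : Normal k κN := inferInstance
  obtain ⟨n, hn⟩ := (FiniteField.bijective_frobeniusAlgEquivOfAlgebraic_pow k κN).2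
    (d.restrictNormal κN)
  refine ⟨n, fun x => ?_⟩
  rw [← AlgEquiv.restrictNormal_commutes, ← hn]
  simp only [AlgEquiv.coe_pow, FiniteField.coe_frobeniusAlgEquivOfAlgebraic_iterate]
  rw [map_pow]

/-- lifting automorphisms of the residue field -/
theorem lift_res (E Ω : Type) [Field E] [Field Ω] [Algebra E Ω] [IsGalois E Ω]
    (P : Ideal (𝓞 E)) (Q : Ideal (𝓞 Ω)) [Q.IsPrime] [Q.LiesOver P]
    (l : (𝓞 Ω ⧸ Q) ≃ₐ[𝓞 E ⧸ P] (𝓞 Ω ⧸ Q)) :
    ∃ σ : Ω ≃ₐ[E] Ω, σ • Q = Q ∧ ∀ x : 𝓞 Ω, Ideal.Quotient.mk Q (σ • x) = l (Ideal.Quotient.mk Q x) := by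
  have coe_smul : ∀ (σ : Ω ≃ₐ[E] Ω) (x : 𝓞 Ω), ((σ • x : 𝓞 Ω) : Ω) = σ (x : Ω) := fun _ _ => rfl
  have : SMulCommClass (Ω ≃ₐ[E] Ω) (𝓞 E) (𝓞 Ω) := by
    refine ⟨fun σ a x => ?_⟩
    apply RingOfIntegers.ext
    rw [coe_smul]
    simp only [Algebra.smul_def, map_mul]
    exact congrArg₂ (· * ·) (σ.commutes (a : E)) rfl
  have : Algebra.IsInvariant (𝓞 E) (𝓞 Ω) (Ω ≃ₐ[E] Ω) := by
    refine ⟨fun x hx => ?_⟩
    have h : (x : Ω) ∈ Set.range (algebraMap E Ω) := by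
      rw [InfiniteGalois.mem_range_algebraMap_iff_fixed]
      intro σ
      exact congrArg (fun y : 𝓞 Ω => (y : Ω)) (hx σ)
    obtain ⟨k, hk⟩ := h
    have hint : IsIntegral ℤ k := by
      have h1 : IsIntegral ℤ (x : Ω) := x.isIntegral_coe
      rw [← hk] at h1
      exact (isIntegral_algebraMap_iff (algebraMap E Ω).injective).mp h1
    refine ⟨⟨k, hint⟩, ?_⟩
    apply RingOfIntegers.ext
    exact hk
  let : TopologicalSpace (𝓞 Ω) := ⊥
  have : DiscreteTopology (𝓞 Ω) := ⟨rfl⟩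
  have : ContinuousSMul (Ω ≃ₐ[E] Ω) (𝓞 Ω) := by
    rw [continuousSMul_iff_stabilizer_isOpen]
    intro x
    have := stabilizer_isOpen_of_isIntegral (K := E) (L := Ω) (x : Ω)
    convert this using 1
    ext σ
    simp only [SetLike.mem_coe, MulAction.mem_stabilizer_iff]
    constructor
    · intro h
      exact congrArg (fun y : 𝓞 Ω => (y : Ω)) h
    · intro h
      exact RingOfIntegers.ext h
  obtain ⟨σ, hσ⟩ := Ideal.Quotient.stabilizerHom_surjective_of_profinite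
    (G := Ω ≃ₐ[E] Ω) P Q l
  refine ⟨σ.1, σ.2, fun x => ?_⟩
  exact DFunLike.congr_fun hσ (Ideal.Quotient.mk Q x)

/-- The decomposition group: every element `d` is, modulo inertia, a power of Frobenius times an
element fixing a given finite extension. -/
theorem exists_dec {K : Type} [Field K] [NumberField K] (N : IntermediateField K (Kb K))
    [FiniteDimensional K N] {W : Ideal (𝓞 (Kb K))} (hW : W.IsMaximal) {d : GK K}
    (hd : d • W = W) :
    ∃ n : ℕ, ∃ u : GK K, u ∈ N.fixingSubgroup ∧ u • W = W ∧ ∀ z : 𝓞 (Kb K),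
      d • z - (u • z) ^ (Nat.card (𝓞 K ⧸ W.comap (algebraMap (𝓞 K) (𝓞 (Kb K)))) ^ n) ∈ W := by
  have : NumberField N := NumberField.of_module_finite K N
  have hintK : Algebra.IsIntegral (𝓞 K) (𝓞 (Kb K)) :=
    ⟨fun x => (RingOfIntegers.isIntegral x).tower_top⟩
  have hintN : Algebra.IsIntegral (𝓞 N) (𝓞 (Kb K)) :=
    ⟨fun x => (RingOfIntegers.isIntegral x).tower_top⟩
  set v := W.comap (algebraMap (𝓞 K) (𝓞 (Kb K))) with hv
  set w := W.comap (algebraMap (𝓞 N) (𝓞 (Kb K))) with hw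
  have hvmax : v.IsMaximal := Ideal.isMaximal_comap_of_isIntegral_of_isMaximal W
  have hwmax : w.IsMaximal := Ideal.isMaximal_comap_of_isIntegral_of_isMaximal W
  have hvne : v ≠ ⊥ := Ring.ne_bot_of_isMaximal_of_not_isField hvmax (RingOfIntegers.not_isField K)
  have hwne : w ≠ ⊥ := Ring.ne_bot_of_isMaximal_of_not_isField hwmax (RingOfIntegers.not_isField N)
  have : W.LiesOver v := ⟨rfl⟩
  have : W.LiesOver w := ⟨rfl⟩
  have : w.LiesOver v := ⟨by
    rw [hw, hv]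
    ext x
    rfl⟩
  have : IsScalarTower (𝓞 K) (𝓞 N) (𝓞 (Kb K)) := IsScalarTower.of_algebraMap_eq fun x => rfl
  letI := Ideal.Quotient.field v
  letI := Ideal.Quotient.field w
  letI := Ideal.Quotient.field W
  haveI : Finite (𝓞 K ⧸ v) := Ideal.finiteQuotientOfFreeOfNeBot _ hvne
  haveI : Finite (𝓞 N ⧸ w) := Ideal.finiteQuotientOfFreeOfNeBot _ hwne
  cases nonempty_fintype (𝓞 K ⧸ v)
  have hst : IsScalarTower (𝓞 K ⧸ v) (𝓞 N ⧸ w) (𝓞 (Kb K) ⧸ W) := by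
    refine IsScalarTower.of_algebraMap_eq fun x => ?_
    obtain ⟨x, rfl⟩ := Ideal.Quotient.mk_surjective x
    rfl
  have hcomm : SMulCommClass (GK K) (𝓞 K) (𝓞 (Kb K)) := Pool.Agent.K4H40.ST.Frob.inst_comm
  haveI : Algebra.IsAlgebraic (𝓞 K ⧸ v) (𝓞 (Kb K) ⧸ W) := inferInstance
  -- the automorphism induced by `d`
  let dW : MulAction.stabilizer (GK K) W := ⟨d, hd⟩
  let db : (𝓞 (Kb K) ⧸ W) ≃ₐ[𝓞 K ⧸ v] (𝓞 (Kb K) ⧸ W) := Ideal.Quotient.stabilizerHom W v (GK K) dW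
  have hdb : ∀ x : 𝓞 (Kb K), db (Ideal.Quotient.mk W x) = Ideal.Quotient.mk W (d • x) := fun x => rfl
  obtain ⟨n, hn⟩ := res_frob (κN := 𝓞 N ⧸ w) db
  let Φ : (𝓞 (Kb K) ⧸ W) ≃ₐ[𝓞 K ⧸ v] (𝓞 (Kb K) ⧸ W) :=
    (FiniteField.frobeniusAlgEquivOfAlgebraic (𝓞 K ⧸ v) (𝓞 (Kb K) ⧸ W)) ^ n
  have hΦ : ∀ x, Φ x = x ^ (Fintype.card (𝓞 K ⧸ v) ^ n) := fun x => by
    simp only [Φ, AlgEquiv.coe_pow, FiniteField.coe_frobeniusAlgEquivOfAlgebraic_iterate]
  let u0 : (𝓞 (Kb K) ⧸ W) ≃ₐ[𝓞 K ⧸ v] (𝓞 (Kb K) ⧸ W) := db.trans Φ.symm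
  have hu0 : ∀ x, Φ (u0 x) = db x := fun x => Φ.apply_symm_apply (db x)
  let u1 : (𝓞 (Kb K) ⧸ W) ≃ₐ[𝓞 N ⧸ w] (𝓞 (Kb K) ⧸ W) :=
    { u0 with
      commutes' := fun x => by
        apply Φ.injective
        change Φ (u0 _) = _
        rw [hu0, hn, hΦ] }
  have hu1 : ∀ x, u1 x = u0 x := fun x => rfl
  have : IsGalois N (Kb K) := by
    haveI : Algebra.IsAlgebraic N (Kb K) := Algebra.IsAlgebraic.tower_top (K := K) N
    haveI : IsAlgClosure N (Kb K) := ⟨inferInstance, inferInstance⟩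
    exact Pool.Agent.K4H40.ST.Frob.isGal
  obtain ⟨σ, hσW, hσ⟩ := lift_res N (Kb K) w W u1
  refine ⟨n, σ.restrictScalars K, ?_, ?_, fun z => ?_⟩
  · intro x
    exact σ.commutes x
  · have hsm : ∀ x : 𝓞 (Kb K), (σ.restrictScalars K : GK K)⁻¹ • x = σ⁻¹ • x := fun x =>
      RingOfIntegers.ext rfl
    ext x
    rw [Ideal.mem_pointwise_smul_iff_inv_smul_mem, hsm, ← Ideal.mem_pointwise_smul_iff_inv_smul_mem,
      hσW]
  · have hsm : (σ.restrictScalars K : GK K) • z = σ • z := RingOfIntegers.ext rfl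
    rw [hsm, ← Ideal.Quotient.eq, map_pow, hσ, hu1, ← hdb, ← hu0, hΦ, Nat.card_eq_fintype_card]

end Pool.Agent.K4H43.BK
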